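import Mathlib
import Pool.Agent.Helper74.PF.EllB
import Pool.Agent.Helper74.PF.CanB

set_option autoImplicit false

/-!
# Explicit difference of the naive and the canonical height
-/

namespace Pool.Agent.Helper10.EF

open WeierstrassCurve Pool.Agent.Helper74.PF

/-- `max |a_i| + 2`. -/
def hgt (W : WeierstrassCurve ℤ) : ℕ :=
  max (max (max (max W.a₁.natAbs W.a₂.natAbs) W.a₃.natAbs) W.a₄.natAbs) W.a₆.natAbs + 2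

theorem two_le_hgt (W : WeierstrassCurve ℤ) : 2 ≤ hgt W := by
  unfold hgt; omega

section poly

variable (b2 b4 b6 b8 a b : ℤ)

/-- numerator of the duplication formula -/
def ff : ℤ := a ^ 4 - b4 * a ^ 2 * b ^ 2 - 2 * b6 * a * b ^ 3 - b8 * b ^ 4

/-- denominator of the duplication formula -/
def gg : ℤ := 4 * a ^ 3 * b + b2 * a ^ 2 * b ^ 2 + 2 * b4 * a * b ^ 3 + b6 * b ^ 4

/-- first coefficient -/
def c00 : ℤ := (-b2 ^ 2 * b8 + 9 * b2 * b4 * b6 - 8 * b4 ^ 3 - 27 * b6 ^ 2) * a ^ 4 +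
  (2 * b2 * b4 * b8 - 2 * b4 ^ 2 * b6 - 10 * b6 * b8) * (2 * a ^ 3 * b) +
  (-b2 * b6 * b8 + b4 * b6 ^ 2) * (a ^ 2 * b ^ 2) +
  (3 * b4 ^ 2 * b8 - 3 * b4 * b6 ^ 2) * (4 * a ^ 2 * b ^ 2) +
  (3 * b4 * b6 * b8 - 3 * b6 ^ 3) * (2 * a * b ^ 3)

/-- second coefficient -/
def c01 : ℤ := (-b2 * b4 * b8 + b4 ^ 2 * b6 + 5 * b6 * b8) * a ^ 4 +
  (2 * b2 * b6 * b8 - 2 * b4 * b6 ^ 2 - 10 * b8 ^ 2) * (2 * a ^ 3 * b) +
  (-b2 * b8 ^ 2 + b4 * b6 * b8) * (a ^ 2 * b ^ 2) +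
  (3 * b4 * b6 * b8 - 3 * b6 ^ 3) * (4 * a ^ 2 * b ^ 2) +
  (3 * b4 * b8 ^ 2 - 3 * b6 ^ 2 * b8) * (2 * a * b ^ 3)

/-- third coefficient -/
def c20 : ℤ := -12 * (4 * a ^ 2 * b ^ 2) + -4 * b2 * (2 * a * b ^ 3) + (b2 ^ 2 - 32 * b4) * b ^ 4

/-- fourth coefficient -/
def c21 : ℤ := 6 * (2 * a ^ 3 * b) + -b2 * (a ^ 2 * b ^ 2) + -5 * b4 * (2 * a * b ^ 3) +
  (b2 * b4 - 27 * b6) * b ^ 4

/-- the discriminant -/
def dd : ℤ := -b2 ^ 2 * b8 - 8 * b4 ^ 3 - 27 * b6 ^ 2 + 9 * b2 * b4 * b6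

variable {b2 b4 b6 b8}

theorem cert0 (h : 4 * b8 = b2 * b6 - b4 ^ 2) :
    c00 b2 b4 b6 b8 a b * ff b4 b6 b8 a b + c01 b2 b4 b6 b8 a b * gg b2 b4 b6 a b
      = dd b2 b4 b6 b8 * a ^ 8 := by
  simp only [c00, c01, ff, gg, dd]
  linear_combination (8 * a ^ 6 * b ^ 2 * b4 ^ 2 - 20 * a ^ 6 * b ^ 2 * b8
    - 6 * a ^ 5 * b ^ 3 * b2 * b8 + 22 * a ^ 5 * b ^ 3 * b4 * b6 - 4 * a ^ 4 * b ^ 4 * b4 * b8
    + 12 * a ^ 4 * b ^ 4 * b6 ^ 2) * h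

theorem cert2 (h : 4 * b8 = b2 * b6 - b4 ^ 2) :
    c20 b2 b4 a b * ff b4 b6 b8 a b + c21 b2 b4 b6 a b * gg b2 b4 b6 a b
      = dd b2 b4 b6 b8 * b ^ 8 := by
  simp only [c20, c21, ff, gg, dd]
  linear_combination (12 * a ^ 2 * b ^ 6 + 2 * a * b ^ 7 * b2 + 8 * b ^ 8 * b4) * h

/-! ### Bounds -/

theorem badd {x y X Y : ℤ} (h1 : |x| ≤ X) (h2 : |y| ≤ Y) : |x + y| ≤ X + Y :=
  (abs_add_le _ _).trans (add_le_add h1 h2)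

theorem bsub {x y X Y : ℤ} (h1 : |x| ≤ X) (h2 : |y| ≤ Y) : |x - y| ≤ X + Y :=
  (abs_sub _ _).trans (add_le_add h1 h2)

theorem bneg {x X : ℤ} (h1 : |x| ≤ X) : |(-x)| ≤ X := by rwa [abs_neg]

theorem bmul {x y X Y : ℤ} (h1 : |x| ≤ X) (h2 : |y| ≤ Y) : |x * y| ≤ X * Y := by
  rw [abs_mul]
  exact mul_le_mul h1 h2 (abs_nonneg _) ((abs_nonneg _).trans h1)

theorem bpow {x X : ℤ} (h1 : |x| ≤ X) (n : ℕ) : |x ^ n| ≤ X ^ n := by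
  rw [abs_pow]
  exact pow_le_pow_left₀ (abs_nonneg _) h1 n

variable {K n : ℤ} {a b : ℤ}

theorem ff_le (h4 : |b4| ≤ K) (h6 : |b6| ≤ K) (h8 : |b8| ≤ K) (hK : 1 ≤ K)
    (ha : |a| ≤ n) (hb : |b| ≤ n) : |ff b4 b6 b8 a b| ≤ 8 * K * n ^ 4 := by
  have hn : 0 ≤ n := (abs_nonneg _).trans ha
  have hK0 : 0 ≤ K := zero_le_one.trans hK
  have hK2 : K ^ 2 ≤ K ^ 3 := pow_le_pow_right₀ hK (by norm_num)
  have hK1 : K ≤ K ^ 3 := by simpa using pow_le_pow_right₀ hK (show 1 ≤ 3 by norm_num)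
  have hK3 : 1 ≤ K ^ 3 := one_le_pow₀ hK
  have bc : ∀ c : ℕ, |(c : ℤ)| ≤ c := fun c => by simp
  have hn4 := pow_nonneg hn 4
  unfold ff
  refine (id (bsub (bsub (bsub (bpow ha 4) (bmul (bmul h4 (bpow ha 2)) (bpow hb 2))) (bmul (bmul (bmul (bc 2) h6) ha) (bpow hb 3))) (bmul h8 (bpow hb 4))) : _ ≤ _).trans ?_
  push_cast
  nlinarith [mul_le_mul_of_nonneg_right hK hn4, mul_le_mul_of_nonneg_right hK2 hn4,
    mul_le_mul_of_nonneg_right hK1 hn4, mul_le_mul_of_nonneg_right hK3 hn4]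

theorem gg_le (h2 : |b2| ≤ K) (h4 : |b4| ≤ K) (h6 : |b6| ≤ K) (hK : 1 ≤ K)
    (ha : |a| ≤ n) (hb : |b| ≤ n) : |gg b2 b4 b6 a b| ≤ 8 * K * n ^ 4 := by
  have hn : 0 ≤ n := (abs_nonneg _).trans ha
  have hK0 : 0 ≤ K := zero_le_one.trans hK
  have hK2 : K ^ 2 ≤ K ^ 3 := pow_le_pow_right₀ hK (by norm_num)
  have hK1 : K ≤ K ^ 3 := by simpa using pow_le_pow_right₀ hK (show 1 ≤ 3 by norm_num)
  have hK3 : 1 ≤ K ^ 3 := one_le_pow₀ hK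
  have bc : ∀ c : ℕ, |(c : ℤ)| ≤ c := fun c => by simp
  have hn4 := pow_nonneg hn 4
  unfold gg
  refine (id (badd (badd (badd (bmul (bmul (bc 4) (bpow ha 3)) hb) (bmul (bmul h2 (bpow ha 2)) (bpow hb 2))) (bmul (bmul (bmul (bc 2) h4) ha) (bpow hb 3))) (bmul h6 (bpow hb 4))) : _ ≤ _).trans ?_
  push_cast
  nlinarith [mul_le_mul_of_nonneg_right hK hn4, mul_le_mul_of_nonneg_right hK2 hn4,
    mul_le_mul_of_nonneg_right hK1 hn4, mul_le_mul_of_nonneg_right hK3 hn4]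

theorem c00_le (h2 : |b2| ≤ K) (h4 : |b4| ≤ K) (h6 : |b6| ≤ K) (h8 : |b8| ≤ K) (hK : 1 ≤ K)
    (ha : |a| ≤ n) (hb : |b| ≤ n) : |c00 b2 b4 b6 b8 a b| ≤ 111 * K ^ 3 * n ^ 4 := by
  have hn : 0 ≤ n := (abs_nonneg _).trans ha
  have hK0 : 0 ≤ K := zero_le_one.trans hK
  have hK2 : K ^ 2 ≤ K ^ 3 := pow_le_pow_right₀ hK (by norm_num)
  have hK1 : K ≤ K ^ 3 := by simpa using pow_le_pow_right₀ hK (show 1 ≤ 3 by norm_num)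
  have hK3 : 1 ≤ K ^ 3 := one_le_pow₀ hK
  have bc : ∀ c : ℕ, |(c : ℤ)| ≤ c := fun c => by simp
  have hn4 := pow_nonneg hn 4
  unfold c00
  refine (id (badd (badd (badd (badd (bmul (bsub (bsub (badd (bmul (bneg (bpow h2 2)) h8) (bmul (bmul (bmul (bc 9) h2) h4) h6)) (bmul (bc 8) (bpow h4 3))) (bmul (bc 27) (bpow h6 2))) (bpow ha 4)) (bmul (bsub (bsub (bmul (bmul (bmul (bc 2) h2) h4) h8) (bmul (bmul (bc 2) (bpow h4 2)) h6)) (bmul (bmul (bc 10) h6) h8)) (bmul (bmul (bc 2) (bpow ha 3)) hb))) (bmul (badd (bmul (bmul (bneg h2) h6) h8) (bmul h4 (bpow h6 2))) (bmul (bpow ha 2) (bpow hb 2)))) (bmul (bsub (bmul (bmul (bc 3) (bpow h4 2)) h8) (bmul (bmul (bc 3) h4) (bpow h6 2))) (bmul (bmul (bc 4) (bpow ha 2)) (bpow hb 2)))) (bmul (bsub (bmul (bmul (bmul (bc 3) h4) h6) h8) (bmul (bc 3) (bpow h6 3))) (bmul (bmul (bc 2) ha) (bpow hb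 3)))) : _ ≤ _).trans ?_
  push_cast
  nlinarith [mul_le_mul_of_nonneg_right hK hn4, mul_le_mul_of_nonneg_right hK2 hn4,
    mul_le_mul_of_nonneg_right hK1 hn4, mul_le_mul_of_nonneg_right hK3 hn4]

theorem c01_le (h2 : |b2| ≤ K) (h4 : |b4| ≤ K) (h6 : |b6| ≤ K) (h8 : |b8| ≤ K) (hK : 1 ≤ K)
    (ha : |a| ≤ n) (hb : |b| ≤ n) : |c01 b2 b4 b6 b8 a b| ≤ 73 * K ^ 3 * n ^ 4 := by
  have hn : 0 ≤ n := (abs_nonneg _).trans ha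
  have hK0 : 0 ≤ K := zero_le_one.trans hK
  have hK2 : K ^ 2 ≤ K ^ 3 := pow_le_pow_right₀ hK (by norm_num)
  have hK1 : K ≤ K ^ 3 := by simpa using pow_le_pow_right₀ hK (show 1 ≤ 3 by norm_num)
  have hK3 : 1 ≤ K ^ 3 := one_le_pow₀ hK
  have bc : ∀ c : ℕ, |(c : ℤ)| ≤ c := fun c => by simp
  have hn4 := pow_nonneg hn 4
  unfold c01
  refine (id (badd (badd (badd (badd (bmul (badd (badd (bmul (bmul (bneg h2) h4) h8) (bmul (bpow h4 2) h6)) (bmul (bmul (bc 5) h6) h8)) (bpow ha 4)) (bmul (bsub (bsub (bmul (bmul (bmul (bc 2) h2) h6) h8) (bmul (bmul (bc 2) h4) (bpow h6 2))) (bmul (bc 10) (bpow h8 2))) (bmul (bmul (bc 2) (bpow ha 3)) hb))) (bmul (badd (bmul (bneg h2) (bpow h8 2)) (bmul (bmul h4 h6) h8)) (bmul (bpow ha 2) (bpow hb 2)))) (bmul (bsub (bmul (bmul (bmul (bc 3) h4) h6) h8) (bmul (bc 3) (bpow h6 3))) (bmul (bmul (bc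 4) (bpow ha 2)) (bpow hb 2)))) (bmul (bsub (bmul (bmul (bc 3) h4) (bpow h8 2)) (bmul (bmul (bc 3) (bpow h6 2)) h8)) (bmul (bmul (bc 2) ha) (bpow hb 3)))) : _ ≤ _).trans ?_
  push_cast
  nlinarith [mul_le_mul_of_nonneg_right hK hn4, mul_le_mul_of_nonneg_right hK2 hn4,
    mul_le_mul_of_nonneg_right hK1 hn4, mul_le_mul_of_nonneg_right hK3 hn4]

theorem c20_le (h2 : |b2| ≤ K) (h4 : |b4| ≤ K) (hK : 1 ≤ K)
    (ha : |a| ≤ n) (hb : |b| ≤ n) : |c20 b2 b4 a b| ≤ 111 * K ^ 3 * n ^ 4 := by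
  have hn : 0 ≤ n := (abs_nonneg _).trans ha
  have hK0 : 0 ≤ K := zero_le_one.trans hK
  have hK2 : K ^ 2 ≤ K ^ 3 := pow_le_pow_right₀ hK (by norm_num)
  have hK1 : K ≤ K ^ 3 := by simpa using pow_le_pow_right₀ hK (show 1 ≤ 3 by norm_num)
  have hK3 : 1 ≤ K ^ 3 := one_le_pow₀ hK
  have bc : ∀ c : ℕ, |(c : ℤ)| ≤ c := fun c => by simp
  have hn4 := pow_nonneg hn 4
  unfold c20
  refine (id (badd (badd (bmul (bneg (bc 12)) (bmul (bmul (bc 4) (bpow ha 2)) (bpow hb 2))) (bmul (bmul (bneg (bc 4)) h2) (bmul (bmul (bc 2) ha) (bpow hb 3)))) (bmul (bsub (bpow h2 2) (bmul (bc 32) h4)) (bpow hb 4))) : _ ≤ _).trans ?_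
  push_cast
  nlinarith [mul_le_mul_of_nonneg_right hK hn4, mul_le_mul_of_nonneg_right hK2 hn4,
    mul_le_mul_of_nonneg_right hK1 hn4, mul_le_mul_of_nonneg_right hK3 hn4]

theorem c21_le (h2 : |b2| ≤ K) (h4 : |b4| ≤ K) (h6 : |b6| ≤ K) (hK : 1 ≤ K)
    (ha : |a| ≤ n) (hb : |b| ≤ n) : |c21 b2 b4 b6 a b| ≤ 73 * K ^ 3 * n ^ 4 := by
  have hn : 0 ≤ n := (abs_nonneg _).trans ha
  have hK0 : 0 ≤ K := zero_le_one.trans hK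
  have hK2 : K ^ 2 ≤ K ^ 3 := pow_le_pow_right₀ hK (by norm_num)
  have hK1 : K ≤ K ^ 3 := by simpa using pow_le_pow_right₀ hK (show 1 ≤ 3 by norm_num)
  have hK3 : 1 ≤ K ^ 3 := one_le_pow₀ hK
  have bc : ∀ c : ℕ, |(c : ℤ)| ≤ c := fun c => by simp
  have hn4 := pow_nonneg hn 4
  unfold c21
  refine (id (badd (badd (badd (bmul (bc 6) (bmul (bmul (bc 2) (bpow ha 3)) hb)) (bmul (bneg h2) (bmul (bpow ha 2) (bpow hb 2)))) (bmul (bmul (bneg (bc 5)) h4) (bmul (bmul (bc 2) ha) (bpow hb 3)))) (bmul (bsub (bmul h2 h4) (bmul (bc 27) h6)) (bpow hb 4))) : _ ≤ _).trans ?_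
  push_cast
  nlinarith [mul_le_mul_of_nonneg_right hK hn4, mul_le_mul_of_nonneg_right hK2 hn4,
    mul_le_mul_of_nonneg_right hK1 hn4, mul_le_mul_of_nonneg_right hK3 hn4]

end poly

end Pool.Agent.Helper10.EF
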