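import Pool.Agent.Helper10.EF.Ht
import Pool.Agent.Helper66.EF.Df

set_option autoImplicit false

/-!
# The least height of a point of infinite order and the number of torsion points
-/

namespace Pool.Agent.Helper10.EF

open WeierstrassCurve Pool.Agent.Helper74.PF

open Classical in
/-- numerator and denominator of `x(P)` -/
noncomputable def nd {W : WeierstrassCurve ℤ} : EQ W → ℤ × ℕ
  | .zero => (1, 0)
  | .some x _ _ => (x.num, x.den)

theorem nd_inj {W : WeierstrassCurve ℤ} {P Q : EQ W} (h : nd P = nd Q) : P = Q ∨ P = -Q := by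
  apply Affine.Point.eq_or_eq_neg_of_xRep_eq_xRep
  rcases P with _ | ⟨x, y, hP⟩ <;> rcases Q with _ | ⟨x', y', hQ⟩
  · rfl
  · exact absurd (congrArg Prod.snd h).symm x'.den_nz
  · exact absurd (congrArg Prod.snd h) x.den_nz
  · have : x = x' := Rat.ext (congrArg Prod.fst h) (congrArg Prod.snd h)
    subst this
    rfl

theorem nd_le {W : WeierstrassCurve ℤ} {P : EQ W} {N : ℕ} (hN : 1 ≤ N)
    (h : nht P ≤ Real.log N) : |(nd P).1| ≤ N ∧ (nd P).2 ≤ N := by
  rcases P with _ | ⟨x, y, hP⟩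
  · exact ⟨by show |(1 : ℤ)| ≤ N; simpa using hN, Nat.zero_le _⟩
  · have h1 : Real.log (max (x.num.natAbs : ℝ) (x.den : ℝ)) ≤ Real.log N := h
    have hd : (1 : ℝ) ≤ (x.den : ℝ) := by exact_mod_cast x.den_pos
    have h2 : max (x.num.natAbs : ℝ) (x.den : ℝ) ≤ N :=
      (Real.log_le_log_iff (lt_of_lt_of_le one_pos (hd.trans (le_max_right _ _)))
        (by exact_mod_cast hN)).1 h1
    refine ⟨?_, by exact_mod_cast (le_max_right _ _).trans h2⟩
    show |x.num| ≤ N
    rw [Int.abs_eq_natAbs]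
    exact_mod_cast (le_max_left _ _).trans h2

open Classical in
/-- The number of points of bounded height. -/
theorem card_pts {W : WeierstrassCurve ℤ} (s : Finset (EQ W)) {N : ℕ} (hN : 1 ≤ N)
    (hs : ∀ P ∈ s, nht P ≤ Real.log N) : s.card ≤ 2 * ((2 * N + 1) * (N + 1)) := by
  have h1 : s.card ≤ 2 * (s.image nd).card := by
    refine Finset.card_le_mul_card_image _ 2 fun b hb => ?_
    obtain ⟨P, hP, rfl⟩ := Finset.mem_image.1 hb
    refine (Finset.card_le_card (fun Q hQ => ?_ : _ ⊆ ({P, -P} : Finset (EQ W)))).trans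
      Finset.card_le_two
    rw [Finset.mem_filter] at hQ
    rcases nd_inj hQ.2 with h | h <;> simp [h]
  have h2 : s.image nd ⊆ Finset.Icc (-(N : ℤ)) N ×ˢ Finset.range (N + 1) := by
    intro b hb
    obtain ⟨P, hP, rfl⟩ := Finset.mem_image.1 hb
    obtain ⟨h3, h4⟩ := nd_le hN (hs P hP)
    rw [Finset.mem_product, Finset.mem_Icc, Finset.mem_range]
    exact ⟨abs_le.1 h3, Nat.lt_succ_of_le h4⟩
  have h3 := Finset.card_le_card h2
  rw [Finset.card_product, Finset.card_range, Int.card_Icc] at h3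
  have h4 : ((N : ℤ) + 1 - -(N : ℤ)).toNat = 2 * N + 1 := by omega
  rw [h4] at h3
  omega

theorem card_cht {W : WeierstrassCurve ℤ} (hΔ : W.Δ ≠ 0) (s : Finset (EQ W))
    (hs : ∀ P ∈ s, cht nht P ≤ 1) : s.card ≤ hgt W ^ 24 := by
  have hH := two_le_hgt W
  have hHR : (2 : ℝ) ≤ hgt W := by exact_mod_cast hH
  have h9 : 1 ≤ hgt W ^ 9 := Nat.one_le_pow _ _ (by omega)
  have h1 : ∀ P ∈ s, nht P ≤ Real.log ((3 * hgt W ^ 9 : ℕ) : ℝ) := by
    intro P hP
    have h2 := (abs_le.1 (abs_cht_sub_nht hΔ P)).1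
    have h3 : (1 : ℝ) ≤ Real.log 3 := by
      have := Real.exp_one_lt_d9
      rw [Real.le_log_iff_exp_le (by norm_num)]
      linarith
    push_cast
    rw [Real.log_mul (by norm_num) (by positivity), Real.log_pow]
    push_cast
    linarith [hs P hP]
  have h2 := card_pts s (by omega : 1 ≤ 3 * hgt W ^ 9) h1
  refine h2.trans ?_
  have h6 : 2 ^ 6 ≤ hgt W ^ 6 := Nat.pow_le_pow_left hH 6
  calc 2 * ((2 * (3 * hgt W ^ 9) + 1) * (3 * hgt W ^ 9 + 1))
      ≤ 2 * ((7 * hgt W ^ 9) * (4 * hgt W ^ 9)) :=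
        Nat.mul_le_mul_left _ (Nat.mul_le_mul (by omega) (by omega))
    _ = 56 * hgt W ^ 18 := by ring
    _ ≤ hgt W ^ 6 * hgt W ^ 18 := Nat.mul_le_mul_right _ (by omega)
    _ = hgt W ^ 24 := by ring

/-- A point of infinite order has canonical height at least `H ^ (-48)`. -/
theorem gap {W : WeierstrassCurve ℤ} (hΔ : W.Δ ≠ 0) (P : EQ W) (hP : ¬ IsOfFinAddOrder P) :
    1 / (hgt W : ℝ) ^ 48 ≤ cht nht P := by
  classical
  have hh := nht_aht hΔ
  have hH := two_le_hgt W
  have hHR : (0 : ℝ) < hgt W := by exact_mod_cast (by omega : 0 < hgt W)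
  by_contra hc
  rw [not_le] at hc
  have hinj : Function.Injective (fun j : ℕ => j • P) :=
    injective_nsmul_iff_not_isOfFinAddOrder.2 hP
  have h1 := card_cht hΔ ((Finset.range (hgt W ^ 24 + 1)).map ⟨_, hinj⟩) (by
    intro Q hQ
    rw [Finset.mem_map] at hQ
    obtain ⟨j, hj, rfl⟩ := hQ
    have hj' : (j : ℝ) ≤ (hgt W : ℝ) ^ 24 := by
      have := Finset.mem_range.1 hj
      exact_mod_cast Nat.lt_succ_iff.1 this
    have e : cht nht ((⟨fun j : ℕ => j • P, hinj⟩ : ℕ ↪ EQ W) j) = (j : ℝ) ^ 2 * cht nht P := by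
      have := cht_zsmul hh (j : ℤ) P
      rw [natCast_zsmul] at this
      exact_mod_cast this
    rw [e]
    have h0 : 0 ≤ cht nht P := cht_nonneg hh P
    calc (j : ℝ) ^ 2 * cht nht P ≤ ((hgt W : ℝ) ^ 24) ^ 2 * cht nht P :=
          mul_le_mul_of_nonneg_right (pow_le_pow_left₀ (by positivity) hj' 2) h0
      _ ≤ ((hgt W : ℝ) ^ 24) ^ 2 * (1 / (hgt W : ℝ) ^ 48) :=
          mul_le_mul_of_nonneg_left hc.le (by positivity)
      _ = 1 := by
          rw [← pow_mul]
          norm_num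
          exact mul_inv_cancel₀ (by positivity))
  rw [Finset.card_map, Finset.card_range] at h1
  omega

theorem tors_le {W : WeierstrassCurve ℤ} (hΔ : W.Δ ≠ 0) : tors (EQ W) ≤ hgt W ^ 24 := by
  classical
  have hh := nht_aht hΔ
  have : Finite {P : EQ W // IsOfFinAddOrder P} := finite_tors hh
  have := Fintype.ofFinite {P : EQ W // IsOfFinAddOrder P}
  have h1 := card_cht hΔ ((Finset.univ : Finset {P : EQ W // IsOfFinAddOrder P}).map
    (Function.Embedding.subtype _)) (by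
      intro Q hQ
      rw [Finset.mem_map] at hQ
      obtain ⟨j, -, rfl⟩ := hQ
      have : cht nht (j : EQ W) = 0 := cht_of_tors hh j.2
      show cht nht (j : EQ W) ≤ 1
      rw [this]
      exact zero_le_one)
  rw [Finset.card_map, Finset.card_univ, ← Nat.card_eq_fintype_card] at h1
  exact h1

/-- EF-H: the least canonical height, and the number of torsion points. -/
theorem heights : ∃ C : ℕ, ∀ W : WeierstrassCurve ℤ, W.Δ ≠ 0 →
    (∀ P : EQ W, ¬ IsOfFinAddOrder P → 1 / Helper66.EF.hgt W ^ C ≤ cht nht P) ∧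
      (tors (EQ W) : ℝ) ≤ Helper66.EF.hgt W ^ C := by
  refine ⟨48, fun W hΔ => ?_⟩
  have e : Helper66.EF.hgt W = (hgt W : ℝ) := rfl
  rw [e]
  refine ⟨fun P hP => gap hΔ P hP, ?_⟩
  have h1 : (tors (EQ W) : ℝ) ≤ (hgt W : ℝ) ^ 24 := by exact_mod_cast tors_le hΔ
  refine h1.trans (pow_le_pow_right₀ ?_ (by norm_num))
  exact_mod_cast (by have := two_le_hgt W; omega : 1 ≤ hgt W)

end Pool.Agent.Helper10.EF
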