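import Pool.Agent.Helper10.EF.Dup

set_option autoImplicit false

/-!
# Explicit difference of the naive and the canonical height, second part
-/

namespace Pool.Agent.Helper10.EF

open WeierstrassCurve Pool.Agent.Helper74.PF Height Filter Topology

/-- The height of a pair of coprime integers. -/
theorem logHeight_cop {f g : ℤ} (h : Int.gcd f g = 1) :
    logHeight ![(f : ℚ), (g : ℚ)] = Real.log ((max |f| |g| : ℤ) : ℝ) := by
  have h1 : (.univ : Finset (Fin 2)).gcd ![f, g] = 1 := by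
    have : gcd f (normalize g) = 1 := by
      rw [← Int.coe_gcd, ← Int.abs_eq_normalize]
      have e : Int.gcd f |g| = Int.gcd f g := by rw [Int.gcd_def, Int.natAbs_abs, ← Int.gcd_def]
      rw [e, h]
      rfl
    simpa [Finset.univ_fin2] using this
  have h2 := Rat.logHeight_eq_max_abs_of_gcd_eq_one h1
  have h3 : (((↑) : ℤ → ℚ) ∘ ![f, g]) = ![(f : ℚ), (g : ℚ)] := by
    funext i; fin_cases i <;> simp
  have h4 : (⨆ i, |(![f, g] : Fin 2 → ℤ) i|) = max |f| |g| := by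
    refine le_antisymm (ciSup_le fun i => ?_) (max_le ?_ ?_)
    · fin_cases i <;> simp
    · exact Finite.le_ciSup_of_le (0 : Fin 2) (by simp)
    · exact Finite.le_ciSup_of_le (1 : Fin 2) (by simp)
  rw [h3, h4] at h2
  exact h2

/-- The height of a pair of integers. -/
theorem logHeight_pair {f g : ℤ} (h : f ≠ 0 ∨ g ≠ 0) :
    logHeight ![(f : ℚ), (g : ℚ)] =
      Real.log ((max |f| |g| : ℤ) : ℝ) - Real.log (Int.gcd f g : ℝ) := by
  have hd : 0 < Int.gcd f g := by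
    rcases h with h | h
    · exact Int.gcd_pos_of_ne_zero_left _ h
    · exact Int.gcd_pos_of_ne_zero_right _ h
  obtain ⟨f', g', hc, hf, hg⟩ := Int.exists_gcd_one hd
  generalize hdd : Int.gcd f g = d at *
  rw [mul_comm] at hf hg
  have hdQ : (d : ℚ) ≠ 0 := by exact_mod_cast hd.ne'
  have e1 : ![(f : ℚ), (g : ℚ)] = (d : ℚ) • ![(f' : ℚ), (g' : ℚ)] := by
    rw [hf, hg]; funext i; fin_cases i <;> simp
  have e2 : max |f| |g| = d * max |f'| |g'| := by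
    rw [hf, hg, abs_mul, abs_mul, Nat.abs_cast, mul_max_of_nonneg _ _ (by positivity)]
  have hm : (0 : ℝ) < ((max |f'| |g'| : ℤ) : ℝ) := by
    have : 0 < max |f'| |g'| := by
      rcases eq_or_ne f' 0 with h0 | h0
      · have : g' ≠ 0 := by
          rintro rfl
          rw [h0] at hc
          simp at hc
        exact lt_max_of_lt_right (abs_pos.2 this)
      · exact lt_max_of_lt_left (abs_pos.2 h0)
    exact_mod_cast this
  rw [e1, logHeight_smul_eq_logHeight _ hdQ, logHeight_cop hc, e2]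
  push_cast
  rw [Real.log_mul (by exact_mod_cast hd.ne') (by exact_mod_cast hm.ne')]
  ring

/-- Integer coordinates of `x(P)`. -/
theorem rep {W : WeierstrassCurve ℤ} (P : EQ W) : ∃ a b : ℤ, Int.gcd a b = 1 ∧
    (∃ c : ℚ, c ≠ 0 ∧ P.xRep 0 = c * a ∧ P.xRep 1 = c * b) ∧
    nht P = Real.log ((max |a| |b| : ℤ) : ℝ) := by
  rcases P with _ | ⟨x, y, h⟩
  · refine ⟨1, 0, by simp, ⟨1, one_ne_zero, ?_, ?_⟩, ?_⟩
    · simp [Affine.Point.xRep]
    · simp [Affine.Point.xRep]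
    · show (0 : ℝ) = _
      simp
  · have hx : ((x.den : ℤ) : ℚ) ≠ 0 := by exact_mod_cast x.den_nz
    refine ⟨x.num, x.den, ?_, ⟨((x.den : ℤ) : ℚ)⁻¹, inv_ne_zero hx, ?_, ?_⟩, ?_⟩
    · have := x.reduced
      rwa [Nat.Coprime, ← Int.natAbs_natCast x.den] at this
    · simp only [Affine.Point.xRep]
      rw [inv_mul_eq_div]
      exact (Rat.num_div_den x).symm
    · simp only [Affine.Point.xRep]
      exact (inv_mul_cancel₀ hx).symm
    · show Real.log (max (x.num.natAbs : ℝ) (x.den : ℝ)) = _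
      congr 1
      rw [Nat.abs_cast]
      push_cast
      rw [Nat.cast_natAbs]
      push_cast
      rfl

theorem dd_eq (W : WeierstrassCurve ℤ) : dd W.b₂ W.b₄ W.b₆ W.b₈ = W.Δ := by
  rw [dd, WeierstrassCurve.Δ]

/-- The duplication map in integer coordinates. -/
theorem dup_rep {W : WeierstrassCurve ℤ} (hΔ : W.Δ ≠ 0) (P : EQ W) : ∃ a b : ℤ,
    Int.gcd a b = 1 ∧ nht P = Real.log ((max |a| |b| : ℤ) : ℝ) ∧
    nht (2 • P) = logHeight ![(ff W.b₄ W.b₆ W.b₈ a b : ℚ), (gg W.b₂ W.b₄ W.b₆ a b : ℚ)] := by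
  have : (W.map (Int.castRingHom ℚ)).IsElliptic := isElliptic_of hΔ
  obtain ⟨a, b, hab, ⟨c, hc, hx0, hx1⟩, hP⟩ := rep P
  refine ⟨a, b, hab, hP, ?_⟩
  obtain ⟨k, hk, h⟩ := par (W.map (Int.castRingHom ℚ)) P P
  have e1 : P.sym2x P = ![P.xRep 0 * P.xRep 0, P.xRep 0 * P.xRep 1 + P.xRep 1 * P.xRep 0,
    P.xRep 1 * P.xRep 1] := rfl
  have e2 : (P + P).sym2x (P - P) = ![(P + P).xRep 0, (P + P).xRep 1, 0] := by
    rw [sub_self]
    have : (P + P).sym2x 0 = ![(P + P).xRep 0 * 1, (P + P).xRep 0 * 0 + (P + P).xRep 1 * 1,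
      (P + P).xRep 1 * 0] := rfl
    rw [this]
    simp
  rw [e1, e2, asv_apply, smul_vec3, map_b₂, map_b₄, map_b₆, map_b₈, hx0, hx1] at h
  have h0 := congrFun h 0
  have h1 := congrFun h 1
  simp only [Matrix.cons_val_zero, Matrix.cons_val_one, eq_intCast] at h0 h1
  have hc4 : c ^ 4 ≠ 0 := pow_ne_zero 4 hc
  have f0 : (ff W.b₄ W.b₆ W.b₈ a b : ℚ) = k / c ^ 4 * (P + P).xRep 0 := by
    rw [div_mul_eq_mul_div, eq_div_iff hc4, ← h0, ff]
    push_cast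
    ring
  have f1 : (gg W.b₂ W.b₄ W.b₆ a b : ℚ) = k / c ^ 4 * (P + P).xRep 1 := by
    rw [div_mul_eq_mul_div, eq_div_iff hc4, ← h1, gg]
    push_cast
    ring
  rw [two_nsmul, nht_eq', f0, f1, ← logHeight_smul_eq_logHeight _ (div_ne_zero hk hc4)]
  congr 1
  funext i
  fin_cases i <;> simp

theorem gcd_dvd_disc {W : WeierstrassCurve ℤ} {a b : ℤ} (hab : Int.gcd a b = 1) :
    (Int.gcd (ff W.b₄ W.b₆ W.b₈ a b) (gg W.b₂ W.b₄ W.b₆ a b) : ℤ) ∣ W.Δ := by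
  have hr : 4 * W.b₈ = W.b₂ * W.b₆ - W.b₄ ^ 2 := W.b_relation
  have h0 := cert0 a b hr
  have h2 := cert2 a b hr
  rw [dd_eq] at h0 h2
  have d0 : (Int.gcd (ff W.b₄ W.b₆ W.b₈ a b) (gg W.b₂ W.b₄ W.b₆ a b) : ℤ) ∣ W.Δ * a ^ 8 := by
    rw [← h0]
    exact dvd_add (Dvd.dvd.mul_left (Int.gcd_dvd_left ..) _)
      (Dvd.dvd.mul_left (Int.gcd_dvd_right ..) _)
  have d2 : (Int.gcd (ff W.b₄ W.b₆ W.b₈ a b) (gg W.b₂ W.b₄ W.b₆ a b) : ℤ) ∣ W.Δ * b ^ 8 := by
    rw [← h2]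
    exact dvd_add (Dvd.dvd.mul_left (Int.gcd_dvd_left ..) _)
      (Dvd.dvd.mul_left (Int.gcd_dvd_right ..) _)
  have hcop : IsCoprime (a ^ 8) (b ^ 8) := (Int.isCoprime_iff_gcd_eq_one.2 hab).pow
  obtain ⟨u, v, huv⟩ := hcop
  have e : W.Δ = u * (W.Δ * a ^ 8) + v * (W.Δ * b ^ 8) := by
    linear_combination (-W.Δ) * huv
  rw [e]
  exact dvd_add (Dvd.dvd.mul_left d0 _) (Dvd.dvd.mul_left d2 _)

/-- The duplication law with an explicit constant. -/
theorem abs_dup_le {W : WeierstrassCurve ℤ} (hΔ : W.Δ ≠ 0) {K : ℤ} (hK : 1 ≤ K)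
    (h2 : |W.b₂| ≤ K) (h4 : |W.b₄| ≤ K) (h6 : |W.b₆| ≤ K) (h8 : |W.b₈| ≤ K) (P : EQ W) :
    |nht (2 • P) - 4 * nht P| ≤ Real.log (184 * K ^ 3) := by
  obtain ⟨a, b, hab, hP, h2P⟩ := dup_rep hΔ P
  have hr : 4 * W.b₈ = W.b₂ * W.b₆ - W.b₄ ^ 2 := W.b_relation
  have h0 := cert0 a b hr
  have h2' := cert2 a b hr
  rw [dd_eq] at h0 h2'
  have hgd := gcd_dvd_disc (W := W) hab
  set n : ℤ := max |a| |b| with hn
  have ha : |a| ≤ n := le_max_left _ _
  have hb : |b| ≤ n := le_max_right _ _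
  have hn1 : 1 ≤ n := by
    rcases eq_or_ne a 0 with h | h
    · have hb0 : b ≠ 0 := by
        rintro rfl
        rw [h] at hab
        simp at hab
      exact (Int.one_le_abs hb0).trans hb
    · exact (Int.one_le_abs h).trans ha
  have hn0 : 0 ≤ n := by omega
  set f : ℤ := ff W.b₄ W.b₆ W.b₈ a b with hf
  set g : ℤ := gg W.b₂ W.b₄ W.b₆ a b with hg
  have b0 : |f| ≤ 8 * K * n ^ 4 := ff_le h4 h6 h8 hK ha hb
  have b1 : |g| ≤ 8 * K * n ^ 4 := gg_le h2 h4 h6 hK ha hb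
  have b2 := c00_le h2 h4 h6 h8 hK ha hb
  have b3 := c01_le h2 h4 h6 h8 hK ha hb
  have b4 := c20_le h2 h4 hK ha hb
  have b5 := c21_le h2 h4 h6 hK ha hb
  set M : ℤ := max |f| |g| with hM
  have hfM : |f| ≤ M := le_max_left _ _
  have hgM : |g| ≤ M := le_max_right _ _
  have hMu : M ≤ 8 * K * n ^ 4 := max_le b0 b1
  have hK0 : 0 ≤ K := by omega
  have hM0 : 0 ≤ M := (abs_nonneg _).trans hfM
  have key0 : |W.Δ| * |a| ^ 8 ≤ 184 * K ^ 3 * n ^ 4 * M := by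
    rw [← abs_pow, ← abs_mul, ← h0]
    refine (badd (bmul b2 hfM) (bmul b3 hgM)).trans (le_of_eq (by ring))
  have key2 : |W.Δ| * |b| ^ 8 ≤ 184 * K ^ 3 * n ^ 4 * M := by
    rw [← abs_pow, ← abs_mul, ← h2']
    refine (badd (bmul b4 hfM) (bmul b5 hgM)).trans (le_of_eq (by ring))
  have key : |W.Δ| * n ^ 8 ≤ 184 * K ^ 3 * n ^ 4 * M := by
    rcases max_choice |a| |b| with h | h
    · exact (congrArg (fun z : ℤ => |W.Δ| * z ^ 8) h).trans_le key0
    · exact (congrArg (fun z : ℤ => |W.Δ| * z ^ 8) h).trans_le key2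
  have key' : |W.Δ| * n ^ 4 ≤ 184 * K ^ 3 * M := by
    have hp : 0 < n ^ 4 := by positivity
    refine le_of_mul_le_mul_right ?_ hp
    calc |W.Δ| * n ^ 4 * n ^ 4 = |W.Δ| * n ^ 8 := by ring
      _ ≤ 184 * K ^ 3 * n ^ 4 * M := key
      _ = 184 * K ^ 3 * M * n ^ 4 := by ring
  have hΔ0 : 0 < |W.Δ| := abs_pos.2 hΔ
  have hMpos : 0 < M := by
    by_contra hc
    have : M = 0 := le_antisymm (not_lt.1 hc) hM0
    rw [this, mul_zero] at key'
    have : 0 < |W.Δ| * n ^ 4 := by positivity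
    omega
  have hne : f ≠ 0 ∨ g ≠ 0 := by
    by_contra hc
    push Not at hc
    rw [hc.1, hc.2] at hM
    simp at hM
    omega
  rw [logHeight_pair hne, ← hM] at h2P
  set d : ℕ := Int.gcd f g with hd
  have hdpos : 0 < d := by
    rcases hne with h | h
    · exact Int.gcd_pos_of_ne_zero_left _ h
    · exact Int.gcd_pos_of_ne_zero_right _ h
  have hdle : (d : ℤ) ≤ |W.Δ| := Int.le_of_dvd hΔ0 ((dvd_abs _ _).2 hgd)
  have hlow : (d : ℤ) * n ^ 4 ≤ 184 * K ^ 3 * M :=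
    (mul_le_mul_of_nonneg_right hdle (by positivity)).trans key'
  -- pass to real numbers
  have hnR : (1 : ℝ) ≤ n := by exact_mod_cast hn1
  have hKR : (1 : ℝ) ≤ K := by exact_mod_cast hK
  have hMR : (0 : ℝ) < M := by exact_mod_cast hMpos
  have hdR : (1 : ℝ) ≤ d := by exact_mod_cast hdpos
  have hMuR : (M : ℝ) ≤ 8 * K * n ^ 4 := by exact_mod_cast hMu
  have hlowR : (d : ℝ) * n ^ 4 ≤ 184 * K ^ 3 * M := by exact_mod_cast hlow
  have hC : (0 : ℝ) < 184 * K ^ 3 := by positivity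
  have l1 : Real.log M ≤ Real.log (184 * K ^ 3) + 4 * Real.log n := by
    have : (M : ℝ) ≤ (184 * K ^ 3) * n ^ 4 := by
      refine hMuR.trans (mul_le_mul_of_nonneg_right ?_ (by positivity))
      have : (K : ℝ) ≤ K ^ 3 := by simpa using pow_le_pow_right₀ hKR (show 1 ≤ 3 by norm_num)
      nlinarith
    have := Real.log_le_log hMR this
    rwa [Real.log_mul hC.ne' (by positivity), Real.log_pow] at this
  have l2 : Real.log d + 4 * Real.log n ≤ Real.log (184 * K ^ 3) + Real.log M := by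
    have := Real.log_le_log (by positivity) hlowR
    rwa [Real.log_mul (by positivity) (by positivity), Real.log_pow,
      Real.log_mul hC.ne' hMR.ne'] at this
  have l3 : 0 ≤ Real.log d := Real.log_nonneg hdR
  rw [h2P, hP, abs_le]
  constructor <;> linarith

/-! ### The bounds for the coefficients -/

theorem a_le (W : WeierstrassCurve ℤ) : |W.a₁| ≤ hgt W ∧ |W.a₂| ≤ hgt W ∧ |W.a₃| ≤ hgt W ∧
    |W.a₄| ≤ hgt W ∧ |W.a₆| ≤ hgt W := by
  unfold hgt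
  simp only [Int.abs_eq_natAbs]
  refine ⟨?_, ?_, ?_, ?_, ?_⟩ <;> omega

theorem b_le (W : WeierstrassCurve ℤ) : |W.b₂| ≤ 8 * (hgt W : ℤ) ^ 3 ∧
    |W.b₄| ≤ 8 * (hgt W : ℤ) ^ 3 ∧ |W.b₆| ≤ 8 * (hgt W : ℤ) ^ 3 ∧
    |W.b₈| ≤ 8 * (hgt W : ℤ) ^ 3 := by
  obtain ⟨h1, h2, h3, h4, h6⟩ := a_le W
  have hH : (2 : ℤ) ≤ hgt W := by exact_mod_cast two_le_hgt W
  generalize (hgt W : ℤ) = H at *
  have bc : ∀ c : ℕ, |(c : ℤ)| ≤ c := fun c => by simp
  have e1 : H ≤ H ^ 3 := by nlinarith [sq_nonneg H, sq_nonneg (H - 1)]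
  have e2 : H ^ 2 ≤ H ^ 3 := by nlinarith [sq_nonneg H]
  have e3 : 2 * H ^ 2 ≤ H ^ 3 := by nlinarith [sq_nonneg H]
  have e4 : 4 * H ≤ H ^ 3 := by nlinarith [sq_nonneg H, sq_nonneg (H - 2)]
  refine ⟨?_, ?_, ?_, ?_⟩
  · rw [b₂]
    refine (id (badd (bpow h1 2) (bmul (bc 4) h2)) : _ ≤ _).trans ?_
    push_cast
    nlinarith
  · rw [b₄]
    refine (id (badd (bmul (bc 2) h4) (bmul h1 h3)) : _ ≤ _).trans ?_
    push_cast
    nlinarith
  · rw [b₆]
    refine (id (badd (bpow h3 2) (bmul (bc 4) h6)) : _ ≤ _).trans ?_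
    push_cast
    nlinarith
  · rw [b₈]
    refine (id (bsub (badd (bsub (badd (bmul (bpow h1 2) h6) (bmul (bmul (bc 4) h2) h6))
      (bmul (bmul h1 h3) h4)) (bmul h2 (bpow h3 2))) (bpow h4 2)) : _ ≤ _).trans ?_
    push_cast
    nlinarith

theorem abs_dup_hgt {W : WeierstrassCurve ℤ} (hΔ : W.Δ ≠ 0) (P : EQ W) :
    |nht (2 • P) - 4 * nht P| ≤ 26 * Real.log (hgt W) := by
  obtain ⟨h2, h4, h6, h8⟩ := b_le W
  have hH : (2 : ℤ) ≤ hgt W := by exact_mod_cast two_le_hgt W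
  have hHR : (2 : ℝ) ≤ hgt W := by exact_mod_cast two_le_hgt W
  have hK : (1 : ℤ) ≤ 8 * (hgt W : ℤ) ^ 3 := by nlinarith [pow_pos (by omega : (0:ℤ) < hgt W) 3]
  refine (abs_dup_le hΔ hK h2 h4 h6 h8 P).trans ?_
  have e : (184 : ℝ) * ((8 * (hgt W : ℤ) ^ 3 : ℤ) : ℝ) ^ 3 ≤ (hgt W : ℝ) ^ 26 := by
    push_cast
    have h17 : (2 : ℝ) ^ 17 ≤ (hgt W : ℝ) ^ 17 := pow_le_pow_left₀ (by norm_num) hHR 17
    have h9 : (0 : ℝ) < (hgt W : ℝ) ^ 9 := by positivity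
    calc (184 : ℝ) * (8 * (hgt W : ℝ) ^ 3) ^ 3 = 94208 * (hgt W : ℝ) ^ 9 := by ring
      _ ≤ (hgt W : ℝ) ^ 17 * (hgt W : ℝ) ^ 9 :=
          mul_le_mul_of_nonneg_right (le_trans (by norm_num) h17) h9.le
      _ = (hgt W : ℝ) ^ 26 := by ring
  refine (Real.log_le_log ?_ e).trans ?_
  · push_cast
    positivity
  · rw [Real.log_pow]
    norm_num

/-- The naive and the canonical height differ by at most `9 log H`. -/
theorem abs_cht_sub_nht {W : WeierstrassCurve ℤ} (hΔ : W.Δ ≠ 0) (P : EQ W) :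
    |cht nht P - nht P| ≤ 9 * Real.log (hgt W) := by
  have hC := abs_dup_hgt hΔ
  have h1 := dist_le_of_le_geometric_of_tendsto₀ (1 / 4) ((26 * Real.log (hgt W)) / 4)
    (by norm_num) (step_le hC P) (tendsto_cht (nht_aht hΔ) P)
  simp only [pow_zero, one_nsmul, div_one] at h1
  rw [abs_sub_comm]
  have h0 : 0 ≤ Real.log (hgt W) :=
    Real.log_nonneg (by exact_mod_cast (by have := two_le_hgt W; omega : 1 ≤ hgt W))
  refine (le_of_eq (Real.dist_eq _ _).symm).trans (h1.trans ?_)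
  norm_num
  nlinarith

end Pool.Agent.Helper10.EF
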